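import Mathlib
import Pool.Agent.Work.MP_4cd38d_pr.Interface

set_option autoImplicit false

/-! APB: a primitive system which is not periodic has bounded powers. -/

namespace Pool.HD.helper10

open Pool.Agent.Work.MP_4cd38d_lc Pool.Agent.Work.MP_4cd38d_pr

theorem hstep_append (S : HSystem) (u v : List ℕ) : hstep S (u ++ v) = hstep S u ++ hstep S v := by
  simp [hstep]

theorem hstep_nil (S : HSystem) : hstep S [] = [] := by simp [hstep]

theorem iter_nil (S : HSystem) (n : ℕ) : (hstep S)^[n] [] = [] := by
  induction n with
  | zero => rfl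
  | succ n ih => rw [Function.iterate_succ_apply, hstep_nil, ih]

theorem iter_append (S : HSystem) (n : ℕ) (u v : List ℕ) :
    (hstep S)^[n] (u ++ v) = (hstep S)^[n] u ++ (hstep S)^[n] v := by
  induction n generalizing u v with
  | zero => rfl
  | succ n ih => rw [Function.iterate_succ_apply, hstep_append, ih]; rfl

theorem iter_flatMap (S : HSystem) (n : ℕ) (w : List ℕ) :
    (hstep S)^[n] w = w.flatMap (fun a => hp S n a) := by
  induction w with
  | nil => simp [iter_nil]
  | cons a w ih =>
    have : a :: w = [a] ++ w := rfl
    rw [this, iter_append, ih]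
    simp [hp]

/-- the output of `S`. -/
def gout (S : HSystem) (w : List ℕ) : List ℕ := w.flatMap (fun a => S.2.2.getD a [])

theorem gout_append (S : HSystem) (u v : List ℕ) : gout S (u ++ v) = gout S u ++ gout S v := by
  simp [gout]

theorem blk_eq (S : HSystem) (n a : ℕ) : blk S n a = gout S (hp S n a) := rfl

theorem gout_flatMap (S : HSystem) (w : List ℕ) (f : ℕ → List ℕ) :
    gout S (w.flatMap f) = w.flatMap (fun a => gout S (f a)) := by
  induction w with
  | nil => rfl
  | cons a w ih => simp [gout_append, ih]

theorem hp_add (S : HSystem) (i j a : ℕ) : hp S (i + j) a = (hp S j a).flatMap (hp S i) := by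
  show (hstep S)^[i + j] [a] = _
  rw [Function.iterate_add_apply, iter_flatMap]

theorem blk_add (S : HSystem) (i j a : ℕ) :
    blk S (i + j) a = (hp S j a).flatMap (blk S i) := by
  rw [blk_eq, hp_add, gout_flatMap]
  rfl

theorem hp_lt {S : HSystem} (hS : Proper S) (n a : ℕ) (ha : a < sz S) :
    ∀ b ∈ hp S n a, b < sz S := by
  induction n generalizing a with
  | zero =>
    intro b hb
    have : b = a := by simpa [hp] using hb
    rw [this]; exact ha
  | succ n ih =>
    intro b hb
    rw [hp_add S n 1 a, List.mem_flatMap] at hb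
    obtain ⟨c, hc, hb⟩ := hb
    have hc' : c ∈ S.2.1.getD a [] := by
      simpa [hp, hstep] using hc
    refine ih c ?_ b hb
    have hal : a < S.2.1.length := ha
    have : S.2.1.getD a [] = S.2.1[a] := by simp [List.getD, hal]
    rw [this] at hc'
    exact hS.2 _ (List.getElem_mem hal) c hc'

theorem infix_flatMap_of_mem {G : ℕ → List ℕ} {w : List ℕ} {c : ℕ} (hc : c ∈ w) :
    G c <:+: w.flatMap G := by
  obtain ⟨s, t, rfl⟩ := List.append_of_mem hc
  refine ⟨s.flatMap G, t.flatMap G, ?_⟩
  simp

theorem infix_flatMap_of_infix {G : ℕ → List ℕ} {v w : List ℕ} (h : v <:+: w) :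
    v.flatMap G <:+: w.flatMap G := by
  obtain ⟨s, t, rfl⟩ := h
  refine ⟨s.flatMap G, t.flatMap G, ?_⟩
  simp

theorem hasPeriod_infix {q : ℕ} {u w : List ℕ} (h : HasPeriod q w) (hu : u <:+: w) :
    HasPeriod q u := by
  obtain ⟨s, t, rfl⟩ := hu
  intro i hi
  have h1 := h (s.length + i) (by simp; omega)
  have e1 : (s ++ u ++ t)[s.length + i]? = u[i]? := by
    rw [List.append_assoc, List.getElem?_append_right (by omega)]
    rw [show s.length + i - s.length = i by omega]
    rw [List.getElem?_append_left (by omega)]
  have e2 : (s ++ u ++ t)[s.length + i + q]? = u[i + q]? := by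
    rw [List.append_assoc, List.getElem?_append_right (by omega)]
    rw [show s.length + i + q - s.length = i + q by omega]
    rw [List.getElem?_append_left (by omega)]
  rw [e1, e2] at h1
  exact h1

theorem hasPeriod_pow (y : List ℕ) (K : ℕ) :
    HasPeriod y.length (List.replicate K y).flatten := by
  induction K with
  | zero => intro i hi; simp at hi
  | succ K ih =>
    intro i hi
    rw [List.replicate_succ, List.flatten_cons] at hi ⊢
    rw [List.getElem?_append_right (show y.length ≤ i + y.length by omega)]
    rw [show i + y.length - y.length = i by omega]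
    by_cases hiy : i < y.length
    · rw [List.getElem?_append_left hiy]
      cases K with
      | zero => simp at hi
      | succ K =>
        rw [List.replicate_succ, List.flatten_cons, List.getElem?_append_left hiy]
    · push Not at hiy
      rw [List.getElem?_append_right hiy]
      have hl : (y ++ (List.replicate K y).flatten).length
          = y.length + (List.replicate K y).flatten.length := by simp
      have := ih (i - y.length) (by omega)
      rw [this]
      congr 1
      omega

theorem stmt_APB (hG : Stmt_GLU) (hI : Stmt_INB) (hT : Stmt_TWO) (hC : Stmt_SCL) : Stmt_APB := by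
  intro S hS hnp
  obtain ⟨M, hM⟩ := hT S hS
  obtain ⟨D, hD⟩ := hC S hS hnp M
  refine ⟨2 * D + 1, ?_⟩
  intro n a ha y hy hyn
  apply hnp
  have hq : 0 < y.length := List.length_pos_iff.mpr hy
  obtain ⟨k, hk1, hk2⟩ := hD y.length hq
  have hProp : Proper S := hS.1
  have hDpos : 0 < D := by
    rcases Nat.eq_zero_or_pos D with h0 | h
    · have h1 := hk1 a ha
      have h2 := hk2 k (by omega) a ha
      rw [h0] at h2
      omega
    · exact h
  have hlen : ((List.replicate (2 * D + 1) y).flatten).length = (2 * D + 1) * y.length := by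
    simp
  have hnk : k + M < n := by
    by_contra hcon
    push Not at hcon
    have h1 := hk2 n hcon a ha
    have h2 := hyn.length_le
    rw [hlen] at h2
    nlinarith
  have hblk : blk S n a = (hp S (n - (k + M)) a).flatMap (blk S (k + M)) := by
    rw [← blk_add]; congr 1; omega
  rw [hblk] at hyn
  obtain ⟨c, hc, hcy⟩ := hI (D * y.length) (blk S (k + M)) _ _ (Nat.mul_pos hDpos hq)
    (fun c hc => hk2 (k + M) le_rfl c (hp_lt hProp _ a ha c hc))
    (by rw [hlen]; nlinarith) hyn
  have hcs : c < sz S := hp_lt hProp _ a ha c hc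
  have hper : HasPeriod y.length (blk S (k + M) c) := hasPeriod_infix (hasPeriod_pow y _) hcy
  rw [blk_add] at hper
  have hA : ∀ d < sz S, HasPeriod y.length (blk S k d) := fun d hd =>
    hasPeriod_infix hper (infix_flatMap_of_mem ((hM c hcs).1 d hd))
  have hB : ∀ j, ∀ d < sz S, HasPeriod y.length (blk S (k + j) d) := by
    intro j d hd
    rw [blk_add]
    apply hG
    · intro e he
      have hes := hp_lt hProp _ d hd e he
      exact ⟨(hk1 e hes).le, hA e hes⟩
    · intro e e' hee
      have h1 := (hM c hcs).2 e e' d j hd hee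
      have h2 := infix_flatMap_of_infix (G := blk S k) h1
      refine hasPeriod_infix hper ?_
      simpa using h2
  obtain ⟨m, hm, hmm⟩ := hS.2.2.1
  have hmt : ∀ t, ∀ a < sz S, ∀ b < sz S, b ∈ hp S (m * (t + 1)) a := by
    intro t
    induction t with
    | zero => intro a ha b hb; simpa using hmm a ha b hb
    | succ t ih =>
      intro a ha b hb
      rw [show m * (t + 1 + 1) = m * (t + 1) + m by ring, hp_add, List.mem_flatMap]
      exact ⟨a, hmm a ha a ha, ih a ha b hb⟩
  refine ⟨y.length, hq, ?_⟩
  intro n' d hd
  by_cases hkn : k ≤ n'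
  · have := hB (n' - k) d hd
    rwa [show k + (n' - k) = n' by omega] at this
  · push Not at hkn
    have h1 : blk S (n' + m * (k + 1)) d = (hp S (m * (k + 1)) d).flatMap (blk S n') := blk_add _ _ _ _
    have h2 : k ≤ n' + m * (k + 1) := by nlinarith
    have h3 := hB (n' + m * (k + 1) - k) d hd
    rw [show k + (n' + m * (k + 1) - k) = n' + m * (k + 1) by omega, h1] at h3
    exact hasPeriod_infix h3 (infix_flatMap_of_mem (hmt k d hd d hd))

end Pool.HD.helper10
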